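import Pool.Agent.Work.MP_e0aece_nt.Bd.B04
import Pool.Agent.Work.MP_e0aece_nt.Bd.B05
import Pool.Agent.Work.MP_e0aece_nt.Bd.B06
import Pool.Agent.Work.MP_e0aece_nt.Bd.B02
import Pool.Agent.Work.MP_e0aece_nt.Bd.B07
import Pool.Agent.Work.MP_e0aece_nt.Bd.B08
import Pool.Agent.Work.MP_e0aece_nt.Bd.B09

/-!
# Assembly: `R x ≥ log x / (log log x) ^ C`
-/

namespace Pool.Agent.Work.MP_e0aece_nt.Lg

open Sq Eps

/-- Module W. -/
theorem modW : ClaimWeil :=
  claimWeil claimW1 (claimW4 claimW2 claimW3) claimW5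
    (claimW10 (claimW9 (claimW7 claimW6) claimW8))

/-- Module B. -/
theorem modB : ClaimB :=
  claimB (claimB3 claimB0 (claimB2 claimB1)) (claimB6 (claimB5 modW))
    (claimB8 (claimB4 (claimB2 claimB1))) (claimB9 claimB7) claimB10 claimB11

/-- C7. -/
theorem modC7 : ClaimC7 := claimC7 claimC2 claimC3 (claimC6 claimC1 claimC4 claimC5)

/-- Module C. -/
theorem modC : ClaimC :=
  claimC (claimC12 modC7 (claimC9 claimC8))
    (claimC15 modC7 (claimC9 claimC8) claimC10 (claimC11 claimC1 (claimC9 claimC8))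
      claimC13 claimC14) claimC16

/-- E2. -/
theorem modE2 : ClaimE2 := claimE2 claimE2a

/-- L12. -/
theorem modL12 : ClaimL12 :=
  claimL12 (claimL12b (claimL12a (claimE12a (claimE11 claimE11a claimE11b))) claimE9)

/-- L14: the spectrum of a maximal state. -/
theorem modL14 : ClaimL14 :=
  claimL14 (claimE4 claimE1 modE2) (claimE5 claimE1 modE2) (claimE7 claimE6) modL12 claimE13

/-- L5: short zero sums. -/
theorem modL5 : ClaimL5 :=
  claimL5 claimF2 (claimL3 claimL3a claimL3b claimL3c claimL3d) claimL5a (claimL5b claimL4)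

/-- The abstract theorem. -/
theorem modLEps : ClaimLEps :=
  claimLEps (claimE3 claimE1) modL14 (claimEn claimE1) claimF1 modL5

/-- The final theorem. -/
theorem claimFinalLg_all : ClaimFinalLg :=
  claimFinalLg (claimLG4 modLEps claimLG5 (claimBcount modB) modC claimD1 claimD2 claimD3)

end Pool.Agent.Work.MP_e0aece_nt.Lg
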